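import Pool.Agent.SDL.Sys
import Pool.Agent.SDL.CMain
import Pool.Agent.SDL.Straight
import Pool.Agent.SDE.TAbs

/-!
# Linearly many pairwise disjoint edges in every simple drawing of the complete graph

`m D` is the largest size of a set of pairwise disjoint edges of the simple drawing `D` of `K_n`,
and `f n` is the minimum of `m D` over all simple drawings `D` of `K_n`. Then
`n / (161 * 4 ^ 32100) ≤ f n ≤ n / 2` for all `n ≥ 2`: `f n` has linear order of growth.
-/

open Set

namespace Pool.Agent.Results.MP_df6f91_co.Linear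

/-- `M` is a set of pairwise disjoint edges of the simple drawing `D` of `K_n`; an edge is given by
the ordered pair of its endpoints, in one of the two orders (the same edge in both orders is not
disjoint from itself, so every edge occurs at most once). -/
def DisjEdges {n : ℕ} (D : SDE.SimpleDrawing (Fin n)) (M : Finset (Fin n × Fin n)) : Prop :=
  (∀ p ∈ M, p.1 ≠ p.2) ∧
    ∀ p ∈ M, ∀ q ∈ M, p ≠ q → Disjoint (D.edge p.1 p.2) (D.edge q.1 q.2)

/-- The largest size of a set of pairwise disjoint edges of `D`. -/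
noncomputable def m {n : ℕ} (D : SDE.SimpleDrawing (Fin n)) : ℕ :=
  sSup {k | ∃ M : Finset (Fin n × Fin n), DisjEdges D M ∧ M.card = k}

/-- The minimum of `m D` over all simple drawings `D` of the complete graph with `n` vertices. -/
noncomputable def f (n : ℕ) : ℕ := sInf {k | ∃ D : SDE.SimpleDrawing (Fin n), m D = k}

private theorem mem1 {n : ℕ} (D : SDE.SimpleDrawing (Fin n)) {u v : Fin n} (h : u ≠ v) :
    D.pt u ∈ D.edge u v :=
  ⟨0, ⟨le_rfl, zero_le_one⟩, D.start u v h⟩

private theorem mem2 {n : ℕ} (D : SDE.SimpleDrawing (Fin n)) {u v : Fin n} (h : u ≠ v) :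
    D.pt v ∈ D.edge u v :=
  ⟨1, ⟨zero_le_one, le_rfl⟩, D.finish u v h⟩

/-- The trivial upper bound. -/
private theorem upper {n : ℕ} (D : SDE.SimpleDrawing (Fin n)) {M : Finset (Fin n × Fin n)}
    (hM : DisjEdges D M) : 2 * M.card ≤ n := by
  classical
  have key : ∀ p ∈ M, ∀ q ∈ M, ∀ u : Fin n, u = p.1 ∨ u = p.2 → u = q.1 ∨ u = q.2 → p = q := by
    intro p hp q hq u hu hu'
    by_contra hne
    have h1 : D.pt u ∈ D.edge p.1 p.2 := by
      rcases hu with rfl | rfl
      · exact mem1 D (hM.1 p hp)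
      · exact mem2 D (hM.1 p hp)
    have h2 : D.pt u ∈ D.edge q.1 q.2 := by
      rcases hu' with rfl | rfl
      · exact mem1 D (hM.1 q hq)
      · exact mem2 D (hM.1 q hq)
    exact Set.disjoint_left.1 (hM.2 p hp q hq hne) h1 h2
  have h1 : (M.image Prod.fst).card = M.card := by
    refine Finset.card_image_of_injOn ?_
    intro p hp q hq he
    exact key p hp q hq p.1 (Or.inl rfl) (Or.inl he)
  have h2 : (M.image Prod.snd).card = M.card := by
    refine Finset.card_image_of_injOn ?_
    intro p hp q hq he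
    exact key p hp q hq p.2 (Or.inr rfl) (Or.inr he)
  have h3 : Disjoint (M.image Prod.fst) (M.image Prod.snd) := by
    rw [Finset.disjoint_left]
    intro u hu hu'
    obtain ⟨p, hp, hpu⟩ := Finset.mem_image.1 hu
    obtain ⟨q, hq, hqu⟩ := Finset.mem_image.1 hu'
    have h4 := key p hp q hq u (Or.inl hpu.symm) (Or.inr hqu.symm)
    subst h4
    exact hM.1 p hp (hpu.trans hqu.symm)
  have h4 := Finset.card_le_univ (M.image Prod.fst ∪ M.image Prod.snd)
  rw [Finset.card_union_of_disjoint h3, h1, h2, Fintype.card_fin] at h4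
  omega

/-- The linear lower bound. -/
private theorem lower {n : ℕ} (hn : 2 ≤ n) (D : SDE.SimpleDrawing (Fin n)) {G : ℕ}
    (hG : G = 4 ^ 32100) :
    ∃ M : Finset (Fin n × Fin n), DisjEdges D M ∧ n ≤ 161 * G * M.card := by
  classical
  obtain ⟨M, hM, hc⟩ := SDE.AbsDrawing.linear_abs
    (SDE.AbsDrawing.closeSys (D := D.toAbs) (⟨0, by omega⟩ : Fin n)) (m := 32100) rfl hG
  rw [Fintype.card_fin] at hc
  rcases Nat.eq_zero_or_pos M.card with h0 | h0
  · refine ⟨{((⟨0, by omega⟩ : Fin n), (⟨1, by omega⟩ : Fin n))}, ⟨?_, ?_⟩, ?_⟩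
    · intro p hp
      rw [Finset.mem_singleton] at hp
      rw [hp]
      intro he
      exact absurd (congrArg Fin.val he) (by norm_num)
    · intro p hp q hq hpq
      rw [Finset.mem_singleton] at hp hq
      exact absurd (hp.trans hq.symm) hpq
    · rw [h0] at hc
      rw [Finset.card_singleton]
      omega
  · refine ⟨M, ⟨fun p hp => (hM.1 p hp).2.2, ?_⟩, ?_⟩
    · intro p hp q hq hpq
      obtain ⟨a1, a2, a3, a4, a5⟩ := hM.2 p hp q hq hpq
      exact D.cr_false (hM.1 p hp).2.2 a1 a2 a3 a4 (hM.1 q hq).2.2 a5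
    · obtain ⟨T, hT⟩ : ∃ T, T = G * M.card := ⟨_, rfl⟩
      have h1 : G ≤ T := by
        rw [hT]
        exact Nat.le_mul_of_pos_right G h0
      have h2 : G * (220 * M.card + 21) = 220 * T + 21 * G := by
        rw [hT]
        ring
      have h3 : 161 * G * M.card = 161 * T := by
        rw [hT]
        ring
      rw [h2] at hc
      rw [h3]
      omega

private theorem m_mem {n : ℕ} (D : SDE.SimpleDrawing (Fin n)) :
    ∃ M : Finset (Fin n × Fin n), DisjEdges D M ∧ M.card = m D := by
  have hne : {k | ∃ M : Finset (Fin n × Fin n), DisjEdges D M ∧ M.card = k}.Nonempty :=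
    ⟨0, ∅, ⟨fun p hp => absurd hp (Finset.notMem_empty p),
      fun p hp => absurd hp (Finset.notMem_empty p)⟩, rfl⟩
  have hb : BddAbove {k | ∃ M : Finset (Fin n × Fin n), DisjEdges D M ∧ M.card = k} := by
    refine ⟨n, ?_⟩
    rintro k ⟨M, hM, rfl⟩
    have := upper D hM
    omega
  exact Nat.sSup_mem hne hb

private theorem le_m {n : ℕ} (D : SDE.SimpleDrawing (Fin n)) {M : Finset (Fin n × Fin n)}
    (hM : DisjEdges D M) : M.card ≤ m D := by
  have hb : BddAbove {k | ∃ M : Finset (Fin n × Fin n), DisjEdges D M ∧ M.card = k} := by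
    refine ⟨n, ?_⟩
    rintro k ⟨M, hM, rfl⟩
    have := upper D hM
    omega
  exact le_csSup hb ⟨M, hM, rfl⟩

/-- **Theorem.** For every `n ≥ 2` the minimum `f n`, over all simple drawings of the complete graph
`K_n`, of the largest size of a set of pairwise disjoint edges satisfies
`n / (161 * 4 ^ 32100) ≤ f n ≤ n / 2`. The minimum is attained (there are simple drawings of
`K_n`). -/
theorem result (n : ℕ) (hn : 2 ≤ n) :
    (∃ D : SDE.SimpleDrawing (Fin n), m D = f n) ∧ n ≤ 161 * 4 ^ 32100 * f n ∧ 2 * f n ≤ n := by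
  have hne : {k | ∃ D : SDE.SimpleDrawing (Fin n), m D = k}.Nonempty := by
    obtain ⟨D⟩ := SDE.exists_simpleDrawing n
    exact ⟨m D, D, rfl⟩
  obtain ⟨D, hD⟩ : ∃ D : SDE.SimpleDrawing (Fin n), m D = f n := Nat.sInf_mem hne
  refine ⟨⟨D, hD⟩, ?_, ?_⟩
  · obtain ⟨M, hM, hc⟩ := lower hn D rfl
    rw [← hD]
    exact hc.trans (Nat.mul_le_mul_left _ (le_m D hM))
  · obtain ⟨M, hM, hc⟩ := m_mem D
    rw [← hD, ← hc]
    exact upper D hM

end Pool.Agent.Results.MP_df6f91_co.Linear
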